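import Pool.Agent.helper21.KBR3.Defs
import Pool.Agent.helper22.Zd.O

/-!
# Holomorphic maps are smooth (module C10)
-/

noncomputable section

namespace KBR

open Set
open scoped ContDiff

variable {m : ℕ}

set_option linter.unusedVariables false in
/-- MODULE C10 (`hol_smooth`): holomorphic maps are smooth. -/
theorem hol_smooth {k : ℕ} {O : Set (Cn m)} (hO : IsOpen O) {f : Cn m → Cn k}
    (hf1 : ContDiffOn ℝ 1 f O) (hf : DifferentiableOn ℂ f O) : ContDiffOn ℝ ∞ f O := by
  have h : ContDiffOn ℂ ∞ f O := by
    rw [contDiffOn_pi]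
    intro i
    exact Pool.Agent.helper96.Zd.contDiffOn_of_differentiableOn hO
      (differentiableOn_pi.mp hf i)
  exact h.restrict_scalars ℝ

end KBR
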